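import Mathlib
import Pool.Agent.Lib.MP_19fd7d_nt.Final
import Pool.Agent.Lib.MP_19fd7d_nt.Primes
import Pool.Agent.Lib.MP_19fd7d_nt.Canon

/-!
# A Galois field with (USB) and infinite local degree at every odd prime

The height is `NumberField.absLogHeight₁` of Mathlib, the absolute logarithmic Weil height.
-/

set_option autoImplicit false

open Polynomial Filter

namespace Pool.Agent.Results.MP_19fd7d_nt.AbelianNorthcott

/-- The degree of a rational function: the maximum of the degrees of numerator and denominator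
(in lowest terms). -/
noncomputable def ratDegree (f : RatFunc (AlgebraicClosure ℚ)) : ℕ :=
  max f.num.natDegree f.denom.natDegree

/-- The map `ℙ¹ → ℙ¹` given by a rational function, where `ℙ¹` is `OnePoint` of the algebraic
numbers: a finite point goes to `num / denom`, which is `∞` at the zeros of the denominator, and
`∞` goes to the quotient of the coefficients in degree `ratDegree f`. -/
noncomputable def act (f : RatFunc (AlgebraicClosure ℚ)) :
    OnePoint (AlgebraicClosure ℚ) → OnePoint (AlgebraicClosure ℚ)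
  | OnePoint.infty =>
    open Classical in
    if f.denom.coeff (ratDegree f) = 0 then OnePoint.infty
    else OnePoint.some (f.num.coeff (ratDegree f) / f.denom.coeff (ratDegree f))
  | OnePoint.some x =>
    open Classical in
    if f.denom.eval x = 0 then OnePoint.infty
    else OnePoint.some (f.num.eval x / f.denom.eval x)

/-- The absolute logarithmic Weil height on `ℙ¹`. -/
noncomputable def height : OnePoint (AlgebraicClosure ℚ) → ℝ
  | OnePoint.infty => 0
  | OnePoint.some x => NumberField.absLogHeight₁ x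

/-- The canonical height `lim h(fⁿ(P)) / (deg f)ⁿ`; the limit exists in degree at least two by
`tendsto_canonicalHeight` below. -/
noncomputable def canonicalHeight (f : RatFunc (AlgebraicClosure ℚ))
    (P : OnePoint (AlgebraicClosure ℚ)) : ℝ :=
  limUnder atTop fun n : ℕ => height ((act f)^[n] P) / (ratDegree f : ℝ) ^ n

/-- The strong Bogomolov property of `F` relative to the canonical height of `f`. -/
def StrongBogomolov (F : Set (AlgebraicClosure ℚ)) (f : RatFunc (AlgebraicClosure ℚ)) : Prop :=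
  ∃ c : ℝ, 0 < c ∧ {α : AlgebraicClosure ℚ | α ∈ F ∧ canonicalHeight f α < c}.Finite

/-- The property (USB). -/
def USB (F : Set (AlgebraicClosure ℚ)) : Prop :=
  ∀ f : RatFunc (AlgebraicClosure ℚ), 2 ≤ ratDegree f → StrongBogomolov F f

/-- The Northcott property (N). -/
def Northcott (F : Set (AlgebraicClosure ℚ)) : Prop :=
  ∀ B : ℝ, {α : AlgebraicClosure ℚ | α ∈ F ∧ NumberField.absLogHeight₁ α ≤ B}.Finite

/-- `F / ℚ` has infinite local degree at `p`: for each place `w` of `F` above `p`, given by an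
embedding `ι` in the algebraic closure of `ℚ_p`, the degrees `[L_w : ℚ_p]` of the completions
`L_w = ℚ_p(ι(L))` of the number fields `L` contained in `F` are unbounded. -/
def InfiniteLocalDegree (F : IntermediateField ℚ (AlgebraicClosure ℚ)) (p : ℕ) [Fact p.Prime] :
    Prop :=
  ∀ (ι : F →+* AlgebraicClosure ℚ_[p]) (n : ℕ), ∃ L : IntermediateField ℚ F,
    FiniteDimensional ℚ L ∧
      n ≤ Module.finrank ℚ_[p] (IntermediateField.adjoin ℚ_[p] (ι '' (L : Set F)))

section Proof

open Pool.Agent.Lib.MP_19fd7d_nt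

/-- The point of the projective line with given homogeneous coordinates. -/
noncomputable def toP (z : Qb × Qb) : OnePoint Qb :=
  open Classical in
  if z.2 = 0 then OnePoint.infty else OnePoint.some (z.1 / z.2)

lemma toP_zero {z : Qb × Qb} (h : z.2 = 0) : toP z = OnePoint.infty := by
  rw [toP, if_pos h]

lemma toP_ne {z : Qb × Qb} (h : z.2 ≠ 0) : toP z = OnePoint.some (z.1 / z.2) := by
  rw [toP, if_neg h]

lemma height_toP (z : Qb × Qb) : height (toP z) = hA (z.1 / z.2) := by
  by_cases h : z.2 = 0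
  · rw [toP_zero h, h, div_zero, hA_zero]; rfl
  · rw [toP_ne h]
    exact absLogHeight₁_eq _

lemma act_toP (f : RatFunc Qb) (z : Qb × Qb) (hz : z.1 ≠ 0 ∨ z.2 ≠ 0) :
    act f (toP z) = toP (Phi f z) := by
  have hP : f.num.natDegree ≤ ratDegree f := le_max_left _ _
  have hQ : f.denom.natDegree ≤ ratDegree f := le_max_right _ _
  have e1 : (Phi f z).1 = hom (ratDegree f) f.num z.1 z.2 := rfl
  have e2 : (Phi f z).2 = hom (ratDegree f) f.denom z.1 z.2 := rfl
  by_cases h : z.2 = 0
  · have hx : z.1 ≠ 0 := by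
      rcases hz with h1 | h1
      · exact h1
      · exact absurd h h1
    have hpow : z.1 ^ ratDegree f ≠ 0 := pow_ne_zero _ hx
    rw [h, hom_zero_right] at e1 e2
    rw [toP_zero h]
    by_cases h2 : f.denom.coeff (ratDegree f) = 0
    · rw [toP_zero (by rw [e2, h2, zero_mul])]
      simp only [act]
      rw [if_pos h2]
    · rw [toP_ne (by rw [e2]; exact mul_ne_zero h2 hpow), e1, e2, mul_div_mul_right _ _ hpow]
      simp only [act]
      rw [if_neg h2]
  · have hpow : z.2 ^ ratDegree f ≠ 0 := pow_ne_zero _ h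
    rw [hom_of_ne_zero hP z.1 h] at e1
    rw [hom_of_ne_zero hQ z.1 h] at e2
    rw [toP_ne h]
    by_cases h2 : f.denom.eval (z.1 / z.2) = 0
    · rw [toP_zero (by rw [e2, h2, mul_zero])]
      simp only [act]
      rw [if_pos h2]
    · rw [toP_ne (by rw [e2]; exact mul_ne_zero hpow h2), e1, e2, mul_div_mul_left _ _ hpow]
      simp only [act]
      rw [if_neg h2]

lemma act_iterate_toP (f : RatFunc Qb) (hf : 1 ≤ ratDegree f) (z : Qb × Qb)
    (hz : z.1 ≠ 0 ∨ z.2 ≠ 0) (n : ℕ) : (act f)^[n] (toP z) = toP ((Phi f)^[n] z) := by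
  induction n with
  | zero => rfl
  | succ n ih =>
    rw [Function.iterate_succ_apply', Function.iterate_succ_apply', ih,
      act_toP f _ (Phi_iterate_ne f hf hz n)]

lemma exists_toP (P : OnePoint Qb) : ∃ z : Qb × Qb, (z.1 ≠ 0 ∨ z.2 ≠ 0) ∧ toP z = P := by
  induction P using OnePoint.rec with
  | infty => exact ⟨(1, 0), Or.inl one_ne_zero, toP_zero rfl⟩
  | coe x => exact ⟨(x, 1), Or.inr one_ne_zero, by rw [toP_ne one_ne_zero, div_one]⟩

lemma tendsto_canonicalHeight (f : RatFunc Qb) (hf : 2 ≤ ratDegree f) (P : OnePoint Qb) :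
    Tendsto (fun n : ℕ => height ((act f)^[n] P) / (ratDegree f : ℝ) ^ n) atTop
      (nhds (canonicalHeight f P)) := by
  obtain ⟨z, hz, rfl⟩ := exists_toP P
  refine CauchySeq.tendsto_limUnder ?_
  have h := cauchySeq_canon f hf hz
  have h2 : (fun n : ℕ => height ((act f)^[n] (toP z)) / (ratDegree f : ℝ) ^ n) =
      (fun n : ℕ => hA (((Phi f)^[n] z).1 / ((Phi f)^[n] z).2) /
      ((max f.num.natDegree f.denom.natDegree : ℕ) : ℝ) ^ n) := by
    funext n
    rw [act_iterate_toP f (by omega) z hz n, height_toP]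
    rfl
  rw [h2]
  exact h

lemma usb_of_northcott' (F : Set Qb) (hN : Northcott F) : USB F := by
  intro f hf
  have hN' : ∀ B : ℝ, {α : Qb | α ∈ F ∧ hA α ≤ B}.Finite := by
    intro B
    have := hN B
    simp_rw [absLogHeight₁_eq] at this
    exact this
  obtain ⟨c, hc, hfin⟩ := usb_of_northcott F hN' f hf
  refine ⟨c, hc, hfin.subset ?_⟩
  rintro α ⟨hα, hlt⟩
  refine ⟨hα, canonicalHeight f α, ?_, hlt⟩
  have h := tendsto_canonicalHeight f hf (α : OnePoint Qb)
  have h1 : ((α : Qb) : OnePoint Qb) = toP (α, 1) := by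
    rw [toP_ne one_ne_zero, div_one]
  have h2 : (fun n : ℕ => height ((act f)^[n] (α : OnePoint Qb)) / (ratDegree f : ℝ) ^ n) =
      (fun n : ℕ => hA (((Phi f)^[n] (α, 1)).1 / ((Phi f)^[n] (α, 1)).2) /
      ((max f.num.natDegree f.denom.natDegree : ℕ) : ℝ) ^ n) := by
    funext n
    rw [h1, act_iterate_toP f (by omega) (α, 1) (Or.inr one_ne_zero) n, height_toP]
    rfl
  rw [h2] at h
  exact h

lemma isGalois_FF (q : ℕ → ℕ) : IsGalois ℚ (FF q) := by
  have h2 : @Normal ℚ (FF q) _ _ (IntermediateField.algebra' _) := by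
    rw [IntermediateField.normal_iff_forall_map_le']
    rintro σ _ ⟨x, hx, rfl⟩
    exact FF_stable σ hx
  have h3 : (IntermediateField.algebra' (FF q) : Algebra ℚ (FF q)) =
      DivisionRing.toRatAlgebra := Subsingleton.elim _ _
  rw [h3] at h2
  exact {}

lemma infiniteLocalDegree_FF {q : ℕ → ℕ} (hq : ∀ i, (q i).Prime) (hdvd : ∀ i, 2 ^ (i + 2) ∣ q i - 1)
    (hns : ∀ i p : ℕ, p.Prime → p ≠ 2 → p ≤ i → ¬ IsSquare (q i : ZMod p)) (p : ℕ)
    [hp : Fact p.Prime] (hp2 : p ≠ 2) : InfiniteLocalDegree (FF q) p := by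
  intro ι n
  by_contra hcon
  push Not at hcon
  have := isGalois_FF q
  have : Algebra.IsAlgebraic ℚ (FF q) := inferInstance
  have hfd := finiteDimensional_of_bounded (k := ℚ_[p]) ι
    (fun L _ => finiteDimensional_adjoin_image ι L) n hcon
  -- extend the embedding to the algebraic numbers
  let : Algebra (FF q) (AlgebraicClosure ℚ_[p]) := ι.toAlgebra
  let ι' : Qb →ₐ[FF q] AlgebraicClosure ℚ_[p] := IsAlgClosed.lift
  have himg : ι'.toRingHom '' (FF q : Set Qb) = Set.range ι := by
    ext y
    constructor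
    · rintro ⟨x, hx, rfl⟩
      exact ⟨⟨x, hx⟩, (ι'.commutes ⟨x, hx⟩).symm⟩
    · rintro ⟨x, rfl⟩
      exact ⟨x, x.2, ι'.commutes x⟩
  refine local_infinite (k := ℚ_[p]) (Ω := AlgebraicClosure ℚ_[p]) ι'.toRingHom hq hdvd
    (fun N => ⟨max N p, le_max_left _ _, fun y hy => ?_⟩) (by rw [himg]; exact hfd)
  exact hns (max N p) p hp.out hp2 (le_max_right _ _) (isSquare_of_padic _ y hy)

end Proof

/-- There is an abelian extension `F / ℚ` (a Galois extension contained in the field generated by
all roots of unity) which has the property (USB), even the Northcott property (N), and whose local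
degree is infinite at every odd prime. -/
theorem result :
    ∃ F : IntermediateField ℚ (AlgebraicClosure ℚ),
      IsGalois ℚ F ∧
      F ≤ IntermediateField.adjoin ℚ {z : AlgebraicClosure ℚ | ∃ n : ℕ, 0 < n ∧ z ^ n = 1} ∧
      USB F ∧ Northcott F ∧
      ∀ (p : ℕ) [Fact p.Prime], p ≠ 2 → InfiniteLocalDegree F p := by
  obtain ⟨q, hq, hmono, hdvd, hbig, hns⟩ := Pool.Agent.Lib.MP_19fd7d_nt.exists_seq
  have hN : Northcott (Pool.Agent.Lib.MP_19fd7d_nt.FF q) := by
    intro B
    simp_rw [Pool.Agent.Lib.MP_19fd7d_nt.absLogHeight₁_eq]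
    exact Pool.Agent.Lib.MP_19fd7d_nt.northcott_FF hq hmono hbig B
  refine ⟨Pool.Agent.Lib.MP_19fd7d_nt.FF q, isGalois_FF q, ?_, usb_of_northcott' _ hN, hN,
    fun p _ hp2 => infiniteLocalDegree_FF hq hdvd hns p hp2⟩
  refine iSup_le fun i => (Pool.Agent.Lib.MP_19fd7d_nt.LL_le _ _).trans ?_
  refine IntermediateField.adjoin.mono _ _ _ fun z hz => ⟨q i, (hq i).pos, hz⟩

end Pool.Agent.Results.MP_19fd7d_nt.AbelianNorthcott
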